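import Pool.Agent.Helper53.TT.Gen

/-!
The chain and the half representation, MP_cf0286_al.
-/

namespace Pool.Agent.Helper53.TT

open Pool.Agent.RA6

/-- decoding of a request -/
def req (k : ℕ) : (ℕ × ℕ) × (ZMod 6 × ZMod 6) :=
  ((k.unpair.1.unpair.1.unpair.1, k.unpair.1.unpair.1.unpair.2),
    ((k.unpair.1.unpair.2.unpair.1 : ℕ), (k.unpair.1.unpair.2.unpair.2 : ℕ)))

theorem req_surj (x y : ℕ) (a b : ZMod 6) (m : ℕ) :
    ∃ k, m ≤ k ∧ req k = ((x, y), (a, b)) := by
  refine ⟨Nat.pair (Nat.pair (Nat.pair x y) (Nat.pair a.val b.val)) m, Nat.right_le_pair _ _, ?_⟩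
  simp [req]

theorem no_mixed : ∀ s : ZMod 6, ¬ Forbidden s 0 0 ∨ ¬ Forbidden s 0 1 := by decide

theorem exists_even_third : ∀ s : ZMod 6, ¬ Forbidden s 0 1 := by decide

theorem exists_next (k : ℕ) (n : ℕ) (hn : 2 ≤ n) (s : St n) :
    ∃ s' : St (n + 1), (∀ i j, i < n → j < n → s'.col i j = s.col i j) ∧
      ((req k).1.1 < n → (req k).1.2 < n → (req k).1.1 ≠ (req k).1.2 →
        ((req k).2.1 ∈ EV ∨ (req k).2.2 ∈ EV) →
        ¬ Forbidden (s.col (req k).1.1 (req k).1.2) (req k).2.1 (req k).2.2 →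
        s'.col (req k).1.1 n = (req k).2.1 ∧ s'.col n (req k).1.2 = (req k).2.2) := by
  by_cases hk : (req k).1.1 < n ∧ (req k).1.2 < n ∧ (req k).1.1 ≠ (req k).1.2 ∧
      ((req k).2.1 ∈ EV ∨ (req k).2.2 ∈ EV) ∧
      ¬ Forbidden (s.col (req k).1.1 (req k).1.2) (req k).2.1 (req k).2.2
  · obtain ⟨h1, h2, h3, h4, h5⟩ := hk
    obtain ⟨s', hs, ha, hb⟩ := step s _ _ _ _ h1 h2 h3 h4 h5
    exact ⟨s', hs, fun _ _ _ _ _ => ⟨ha, hb⟩⟩
  · obtain ⟨s', hs, _, _⟩ := step s 0 1 0 1 (by omega) (by omega)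
      (by omega) (Or.inl (by decide)) (exists_even_third _)
    exact ⟨s', hs, fun h1 h2 h3 h4 h5 => absurd ⟨h1, h2, h3, h4, h5⟩ hk⟩

/-- The start: two vertices on different sides, joined by the colour 0. -/
def start : St 2 where
  side := fun i => decide (i = 0)
  cls := fun _ => 0
  col := fun _ _ => 0
  symm := fun _ _ _ _ _ => rfl
  noforb := fun i j k hi hj hk hij hjk hik => by omega
  inside := fun _ _ _ _ _ _ => Or.inl (by decide)
  across := fun _ _ _ _ _ _ => Or.inl (by decide)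
  forest := fun i j k hi hj hk _ _ _ _ => by omega

/-- The chain of states. -/
noncomputable def chain : (k : ℕ) → St (2 + k)
  | 0 => start
  | (k + 1) => (exists_next k (2 + k) (by omega) (chain k)).choose

theorem chain_ext (k : ℕ) (i j : ℕ) (hi : i < 2 + k) (hj : j < 2 + k) :
    (chain (k + 1)).col i j = (chain k).col i j :=
  (exists_next k (2 + k) (by omega) (chain k)).choose_spec.1 i j hi hj

theorem chain_stable (k d : ℕ) (i j : ℕ) (hi : i < 2 + k) (hj : j < 2 + k) :
    (chain (k + d)).col i j = (chain k).col i j := by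
  induction d with
  | zero => rfl
  | succ d ih =>
    rw [← ih]
    exact chain_ext (k + d) i j (by omega) (by omega)

theorem chain_wit (k : ℕ) (x y : ℕ) (a b : ZMod 6) (hreq : req k = ((x, y), (a, b)))
    (hx : x < 2 + k) (hy : y < 2 + k) (hxy : x ≠ y) (hab : a ∈ EV ∨ b ∈ EV)
    (hf : ¬ Forbidden ((chain k).col x y) a b) :
    (chain (k + 1)).col x (2 + k) = a ∧ (chain (k + 1)).col (2 + k) y = b := by
  have hsp := (exists_next k (2 + k) (by omega) (chain k)).choose_spec.2
  have e1 : (req k).1.1 = x := by rw [hreq]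
  have e2 : (req k).1.2 = y := by rw [hreq]
  have e3 : (req k).2.1 = a := by rw [hreq]
  have e4 : (req k).2.2 = b := by rw [hreq]
  clear hreq
  subst e1 e2 e3 e4
  exact hsp hx hy hxy hab hf

/-- A colouring of the complete graph on `Nat` without forbidden triangles in which every demand
with at least one even colour is satisfied. -/
theorem even_colouring : ∃ c : ℕ → ℕ → ZMod 6, (∀ x y, x ≠ y → c x y = c y x) ∧
    (∀ x y z, x ≠ y → y ≠ z → x ≠ z → ¬ Forbidden (c x y) (c y z) (c x z)) ∧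
    (∀ x y, x ≠ y → ∀ s t, (s ∈ EV ∨ t ∈ EV) → ¬ Forbidden (c x y) s t →
      ∃ w, w ≠ x ∧ w ≠ y ∧ c x w = s ∧ c w y = t) := by
  let c : ℕ → ℕ → ZMod 6 := fun i j => (chain (max i j)).col i j
  have hc : ∀ i j k, i < 2 + k → j < 2 + k → c i j = (chain k).col i j := by
    intro i j k hi hj
    rcases le_total (max i j) k with hk | hk
    · obtain ⟨d, rfl⟩ := Nat.exists_eq_add_of_le hk
      exact (chain_stable (max i j) d i j (by omega) (by omega)).symm
    · obtain ⟨d, hd⟩ := Nat.exists_eq_add_of_le hk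
      show (chain (max i j)).col i j = _
      rw [hd]
      exact chain_stable k d i j hi hj
  refine ⟨c, ?_, ?_, ?_⟩
  · intro x y hxy
    rw [hc x y (max x y) (by omega) (by omega), hc y x (max x y) (by omega) (by omega)]
    exact (chain _).symm _ _ (by omega) (by omega) hxy
  · intro x y z hxy hyz hxz
    have hx : x < 2 + (x + y + z) := by omega
    have hy : y < 2 + (x + y + z) := by omega
    have hz : z < 2 + (x + y + z) := by omega
    rw [hc x y _ hx hy, hc y z _ hy hz, hc x z _ hx hz]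
    exact (chain _).noforb _ _ _ hx hy hz hxy hyz hxz
  · intro x y hxy s t hst hf
    obtain ⟨k, hk, hreq⟩ := req_surj x y s t (x + y)
    have hx : x < 2 + k := by omega
    have hy : y < 2 + k := by omega
    have hst' : ¬ Forbidden ((chain k).col x y) s t := by
      rw [← hc x y k hx hy]; exact hf
    obtain ⟨h1, h2⟩ := chain_wit k x y s t hreq hx hy hxy hst hst'
    refine ⟨2 + k, by omega, by omega, ?_, ?_⟩
    · rw [hc x (2 + k) (k + 1) (by omega) (by omega)]
      exact h1
    · rw [hc (2 + k) y (k + 1) (by omega) (by omega)]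
      exact h2

end Pool.Agent.Helper53.TT
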