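import Pool.Agent.RA6.Defs99

/-!
List colouring of a forest by the three even colours, for MP_cf0286_al.
-/

namespace Pool.Agent.Helper53.TT

/-- The even colours. -/
def EV : Finset (ZMod 6) := {0, 2, 4}

theorem card_EV : EV.card = 3 := by decide

/-- List colouring of a forest (every vertex has at most one older neighbour): all lists but one
have at least two members. -/
theorem list_one (c : ℕ → ℕ → ZMod 6) (E : ℕ → ℕ → Prop)
    (hE : ∀ i j j', j < i → j' < i → E i j → E i j' → j = j') :
    ∀ (n : ℕ) (L : ℕ → Finset (ZMod 6)) (p : ℕ), (∀ i, i < n → i ≠ p → 2 ≤ (L i).card) →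
      (p < n → 1 ≤ (L p).card) →
      ∃ f : ℕ → ZMod 6, (∀ i, i < n → f i ∈ L i) ∧
        ∀ i j, i < n → j < i → E i j → f i + f j + c i j ≠ 2 := by
  classical
  intro n
  induction n with
  | zero =>
    intro L p _ _
    exact ⟨fun _ => 0, fun i hi => absurd hi (by omega), fun i j hi => absurd hi (by omega)⟩
  | succ n ih =>
    intro L p h2 h1
    by_cases hp : n = p
    · subst hp
      obtain ⟨v, hv⟩ := Finset.card_pos.mp (h1 (by omega))
      by_cases hq : ∃ q, q < n ∧ E n q
      · obtain ⟨q, hqn, hEq⟩ := hq
        obtain ⟨f, hf1, hf2⟩ := ih (Function.update L q ((L q).erase (2 - v - c n q))) q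
          (by
            intro i hi hiq
            rw [Function.update_of_ne hiq]
            exact h2 i (by omega) (by omega))
          (by
            intro _
            rw [Function.update_self]
            have h3 := h2 q (by omega) (by omega)
            have h4 := Finset.pred_card_le_card_erase (s := L q) (a := 2 - v - c n q)
            omega)
        refine ⟨Function.update f n v, ?_, ?_⟩
        · intro i hi
          by_cases hin : i = n
          · subst hin; rw [Function.update_self]; exact hv
          · rw [Function.update_of_ne hin]
            have h5 := hf1 i (by omega)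
            by_cases hiq : i = q
            · subst hiq
              rw [Function.update_self] at h5
              exact Finset.mem_of_mem_erase h5
            · rwa [Function.update_of_ne hiq] at h5
        · intro i j hi hj hEij
          by_cases hin : i = n
          · subst hin
            have hjq : j = q := hE i j q hj hqn hEij hEq
            subst hjq
            rw [Function.update_self, Function.update_of_ne (by omega)]
            have h5 := hf1 j (by omega)
            rw [Function.update_self] at h5
            have h6 := Finset.ne_of_mem_erase h5
            intro h7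
            apply h6
            rw [← h7]
            ring
          · rw [Function.update_of_ne hin, Function.update_of_ne (by omega)]
            exact hf2 i j (by omega) hj hEij
      · obtain ⟨f, hf1, hf2⟩ := ih L n (fun i hi _ => h2 i (by omega) (by omega))
          (fun h => absurd h (by omega))
        refine ⟨Function.update f n v, ?_, ?_⟩
        · intro i hi
          by_cases hin : i = n
          · subst hin; rw [Function.update_self]; exact hv
          · rw [Function.update_of_ne hin]; exact hf1 i (by omega)
        · intro i j hi hj hEij
          by_cases hin : i = n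
          · subst hin; exact absurd ⟨j, hj, hEij⟩ hq
          · rw [Function.update_of_ne hin, Function.update_of_ne (by omega)]
            exact hf2 i j (by omega) hj hEij
    · obtain ⟨f, hf1, hf2⟩ := ih L p (fun i hi hip => h2 i (by omega) hip)
        (fun h => h1 (by omega))
      have hcn := h2 n (by omega) hp
      have hv : ∃ v ∈ L n, ∀ j, j < n → E n j → v + f j + c n j ≠ 2 := by
        by_cases hq : ∃ q, q < n ∧ E n q
        · obtain ⟨q, hqn, hEq⟩ := hq
          have h4 := Finset.pred_card_le_card_erase (s := L n) (a := 2 - f q - c n q)
          obtain ⟨v, hv⟩ := Finset.card_pos.mp (show 0 < ((L n).erase (2 - f q - c n q)).card by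
            omega)
          refine ⟨v, Finset.mem_of_mem_erase hv, ?_⟩
          intro j hj hEj
          have hjq : j = q := hE n j q hj hqn hEj hEq
          subst hjq
          intro h7
          apply Finset.ne_of_mem_erase hv
          rw [← h7]
          ring
        · obtain ⟨v, hv⟩ := Finset.card_pos.mp (show 0 < (L n).card by omega)
          exact ⟨v, hv, fun j hj hEj => absurd ⟨j, hj, hEj⟩ hq⟩
      obtain ⟨v, hvL, hv⟩ := hv
      refine ⟨Function.update f n v, ?_, ?_⟩
      · intro i hi
        by_cases hin : i = n
        · subst hin; rw [Function.update_self]; exact hvL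
        · rw [Function.update_of_ne hin]; exact hf1 i (by omega)
      · intro i j hi hj hEij
        by_cases hin : i = n
        · subst hin
          rw [Function.update_self, Function.update_of_ne (by omega)]
          exact hv j hj hEij
        · rw [Function.update_of_ne hin, Function.update_of_ne (by omega)]
          exact hf2 i j (by omega) hj hEij

/-- Two prescribed vertices, the second one the youngest. -/
theorem two_top (c : ℕ → ℕ → ZMod 6) (E : ℕ → ℕ → Prop)
    (hE : ∀ i j j', j < i → j' < i → E i j → E i j' → j = j') (n p : ℕ) (v w : ZMod 6)
    (hp : p < n) (hv : v ∈ EV) (hw : w ∈ EV) (hc : E n p → w + v + c n p ≠ 2) :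
    ∃ f : ℕ → ZMod 6, (∀ i, i < n + 1 → f i ∈ EV) ∧ f p = v ∧ f n = w ∧
        ∀ i j, i < n + 1 → j < i → E i j → f i + f j + c i j ≠ 2 := by
  classical
  let L : ℕ → Finset (ZMod 6) := fun i =>
    if i = p then {v} else if E n i then EV.erase (2 - w - c n i) else EV
  have hL : ∀ i, i ≠ p → 2 ≤ (L i).card := by
    intro i hi
    simp only [L, if_neg hi]
    split_ifs with h
    · have h4 := Finset.pred_card_le_card_erase (s := EV) (a := 2 - w - c n i)
      rw [card_EV] at h4
      omega
    · rw [card_EV]; omega
  obtain ⟨f, hf1, hf2⟩ := list_one c E hE n L p (fun i _ hi => hL i hi)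
    (fun _ => by simp [L])
  refine ⟨Function.update f n w, ?_, ?_, ?_, ?_⟩
  · intro i hi
    by_cases hin : i = n
    · subst hin; rw [Function.update_self]; exact hw
    · rw [Function.update_of_ne hin]
      have h5 := hf1 i (by omega)
      simp only [L] at h5
      split_ifs at h5 with h6 h7
      · rw [Finset.mem_singleton.mp h5]; exact hv
      · exact Finset.mem_of_mem_erase h5
      · exact h5
  · rw [Function.update_of_ne (by omega)]
    have h5 := hf1 p hp
    simp only [L, if_true] at h5
    exact Finset.mem_singleton.mp h5
  · rw [Function.update_self]
  · intro i j hi hj hEij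
    by_cases hin : i = n
    · subst hin
      rw [Function.update_self, Function.update_of_ne (by omega)]
      have h5 := hf1 j hj
      by_cases hjp : j = p
      · subst hjp
        simp only [L, if_true] at h5
        rw [Finset.mem_singleton.mp h5]
        exact hc hEij
      · simp only [L, if_neg hjp, if_pos hEij] at h5
        intro h7
        apply Finset.ne_of_mem_erase h5
        rw [← h7]
        ring
    · rw [Function.update_of_ne hin, Function.update_of_ne (by omega)]
      exact hf2 i j (by omega) hj hEij

/-- Two prescribed vertices. -/
theorem two_pre (c : ℕ → ℕ → ZMod 6) (E : ℕ → ℕ → Prop)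
    (hE : ∀ i j j', j < i → j' < i → E i j → E i j' → j = j') (p q : ℕ) (v w : ZMod 6)
    (hpq : p < q) (hv : v ∈ EV) (hw : w ∈ EV) (hc : E q p → w + v + c q p ≠ 2) :
    ∀ n, q < n → ∃ f : ℕ → ZMod 6, (∀ i, i < n → f i ∈ EV) ∧ f p = v ∧ f q = w ∧
        ∀ i j, i < n → j < i → E i j → f i + f j + c i j ≠ 2 := by
  classical
  intro n
  induction n with
  | zero => intro h; omega
  | succ n ih =>
    intro hqn
    by_cases hq : n = q
    · subst hq
      exact two_top c E hE n p v w hpq hv hw hc
    · obtain ⟨f, hf1, hfp, hfq, hf2⟩ := ih (by omega)
      have hex : ∃ u ∈ EV, ∀ j, j < n → E n j → u + f j + c n j ≠ 2 := by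
        by_cases hq : ∃ r, r < n ∧ E n r
        · obtain ⟨r, hrn, hEr⟩ := hq
          have h4 := Finset.pred_card_le_card_erase (s := EV) (a := 2 - f r - c n r)
          rw [card_EV] at h4
          obtain ⟨u, hu⟩ := Finset.card_pos.mp (show 0 < (EV.erase (2 - f r - c n r)).card by
            omega)
          refine ⟨u, Finset.mem_of_mem_erase hu, ?_⟩
          intro j hj hEj
          have hjq : j = r := hE n j r hj hrn hEj hEr
          subst hjq
          intro h7
          apply Finset.ne_of_mem_erase hu
          rw [← h7]
          ring
        · exact ⟨v, hv, fun j hj hEj => absurd ⟨j, hj, hEj⟩ hq⟩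
      obtain ⟨u, hu, hu2⟩ := hex
      refine ⟨Function.update f n u, ?_, ?_, ?_, ?_⟩
      · intro i hi
        by_cases hin : i = n
        · subst hin; rw [Function.update_self]; exact hu
        · rw [Function.update_of_ne hin]; exact hf1 i (by omega)
      · rw [Function.update_of_ne (by omega)]; exact hfp
      · rw [Function.update_of_ne (by omega)]; exact hfq
      · intro i j hi hj hEij
        by_cases hin : i = n
        · subst hin
          rw [Function.update_self, Function.update_of_ne (by omega)]
          exact hu2 j hj hEij
        · rw [Function.update_of_ne hin, Function.update_of_ne (by omega)]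
          exact hf2 i j (by omega) hj hEij

end Pool.Agent.Helper53.TT
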