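import Pool.Agent.Helper53.TT.Step

/-!
The one point extension for all demands but odd-odd, MP_cf0286_al.
-/

namespace Pool.Agent.Helper53.TT

open Pool.Agent.RA6

theorem exists_fresh {n : ℕ} (s : St n) : ∃ c0, ∀ i, i < n → s.cls i ≠ c0 := by
  refine ⟨(Finset.range n).sup s.cls + 1, ?_⟩
  intro i hi h
  have h1 : s.cls i ≤ (Finset.range n).sup s.cls := Finset.le_sup (Finset.mem_range.mpr hi)
  omega

theorem edge_unique {n : ℕ} (s : St n) (σ : Bool) (Y : ℕ) :
    ∀ i j j', j < i → j' < i →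
      (i < n ∧ s.side i ≠ σ ∧ s.side j ≠ σ ∧ i ≠ Y ∧ j ≠ Y ∧ s.col i j ∈ EV) →
      (i < n ∧ s.side i ≠ σ ∧ s.side j' ≠ σ ∧ i ≠ Y ∧ j' ≠ Y ∧ s.col i j' ∈ EV) → j = j' := by
  intro i j j' hj hj' h1 h2
  have e1 : s.side j = s.side i := by
    have a1 := h1.2.1; have a2 := h1.2.2.1
    revert a1 a2
    cases s.side i <;> cases s.side j <;> cases σ <;> simp
  have e2 : s.side j' = s.side i := by
    have a1 := h2.2.1; have a2 := h2.2.2.1
    revert a1 a2
    cases s.side i <;> cases s.side j' <;> cases σ <;> simp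
  exact s.forest i j j' h1.1 hj hj' e1 e2 h1.2.2.2.2.2 h2.2.2.2.2.2

/-- The general extension: newborn on the side `σ` in the class `c0`; if `H`, it has the red edge
`a` to `x` on its own side; it is joined by the red `v` to `P` (if `P < n`) and by the blue 2 to
`Y` (if `Y < n`), both on the other side. -/
theorem gen {n : ℕ} (s : St n) (σ : Bool) (c0 : ℕ) (H : Prop) (x : ℕ) (a : ZMod 6) (ha : a ∈ EV)
    (P : ℕ) (v : ZMod 6) (hv : v ∈ EV) (Y : ℕ)
    (hH : H → x < n ∧ s.side x = σ)
    (hP : P < n → s.side P ≠ σ ∧ P ≠ Y ∧ (H → s.col x P ∈ EV → s.col x P + v + a ≠ 2))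
    (hY : Y < n → s.side Y ≠ σ ∧ ∀ i, i < n → s.side i = σ → s.cls i ≠ c0) :
    ∃ s' : St (n + 1), (∀ i j, i < n → j < n → s'.col i j = s.col i j) ∧
      (H → s'.col x n = a ∧ s'.col n x = a) ∧
      (P < n → s'.col P n = v ∧ s'.col n P = v) ∧
      (Y < n → s'.col Y n = 5 ∧ s'.col n Y = 5) ∧
      (∀ i, i < n → s.side i = σ → ¬ (H ∧ i = x) →
        s'.col i n = (if s.cls i = c0 then 1 else 3) ∧
        s'.col n i = (if s.cls i = c0 then 1 else 3)) := by
  classical
  let L : ℕ → Finset (ZMod 6) := fun i =>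
    if i = P then {v} else if H ∧ s.col x i ∈ EV then EV.erase (2 - a - s.col x i) else EV
  have hL : ∀ i, i ≠ P → 2 ≤ (L i).card := by
    intro i hi
    simp only [L, if_neg hi]
    split_ifs with h
    · have h4 := Finset.pred_card_le_card_erase (s := EV) (a := 2 - a - s.col x i)
      rw [card_EV] at h4
      omega
    · rw [card_EV]; omega
  let E : ℕ → ℕ → Prop := fun i j =>
    i < n ∧ s.side i ≠ σ ∧ s.side j ≠ σ ∧ i ≠ Y ∧ j ≠ Y ∧ s.col i j ∈ EV
  obtain ⟨f, hf1, hf2⟩ := list_one s.col E (edge_unique s σ Y) n L P (fun i _ hi => hL i hi)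
    (fun _ => by simp [L])
  have hfE : ∀ i, i < n → f i ∈ EV := by
    intro i hi
    have h5 := hf1 i hi
    simp only [L] at h5
    split_ifs at h5 with h6 h7
    · rw [Finset.mem_singleton.mp h5]; exact hv
    · exact Finset.mem_of_mem_erase h5
    · exact h5
  have hfP : P < n → f P = v := by
    intro h
    have h5 := hf1 P h
    simp only [L, if_true] at h5
    exact Finset.mem_singleton.mp h5
  -- the kill of the own host
  have hfH : H → ∀ i, i < n → s.side i ≠ σ → s.col x i ∈ EV → s.col x i + f i + a ≠ 2 := by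
    intro hh i hi hsi hc
    by_cases hiP : i = P
    · subst hiP
      rw [hfP hi]
      exact (hP hi).2.2 hh hc
    · have h5 := hf1 i hi
      simp only [L, if_neg hiP, if_pos (And.intro hh hc)] at h5
      intro h7
      apply Finset.ne_of_mem_erase h5
      rw [← h7]
      ring
  let r : ℕ → ZMod 6 := fun i =>
    if s.side i = σ then (if H ∧ i = x then a else if s.cls i = c0 then 1 else 3)
    else if i = Y then 5 else f i
  have hr1 : ∀ i, s.side i = σ → H ∧ i = x → r i = a := by
    intro i h1 h2; simp only [r, if_pos h1, if_pos h2]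
  have hr2 : ∀ i, s.side i = σ → ¬ (H ∧ i = x) → r i = if s.cls i = c0 then 1 else 3 := by
    intro i h1 h2; simp only [r, if_pos h1, if_neg h2]
  have hr3 : ∀ i, s.side i ≠ σ → i = Y → r i = 5 := by
    intro i h1 h2; simp only [r, if_neg h1, if_pos h2]
  have hr4 : ∀ i, s.side i ≠ σ → i ≠ Y → r i = f i := by
    intro i h1 h2; simp only [r, if_neg h1, if_neg h2]
  have own : ∀ i, s.side i = σ → r i ∈ EV → H ∧ i = x := by
    intro i h1 h2
    by_contra h3
    rw [hr2 i h1 h3] at h2
    exact nat_notin _ h2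
  have five : ∀ i, i < n → s.side i ≠ σ → r i = 5 → i = Y := by
    intro i hi h1 h2
    by_contra h3
    rw [hr4 i h1 h3] at h2
    exact (ev_ne _ (hfE i hi)).2.2 h2
  have notY : ∀ i, s.side i ≠ σ → r i ∈ EV → i ≠ Y := by
    intro i h1 h2 h3
    rw [hr3 i h1 h3] at h2
    revert h2; decide
  obtain ⟨s', g1, g2, g3⟩ := extend s σ c0 r
    (by
      intro i hi hsi
      by_cases h : H ∧ i = x
      · left; rw [hr1 i hsi h]; exact ha
      · right; exact hr2 i hsi h)
    (by
      intro i hi hsi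
      by_cases h : i = Y
      · right; exact hr3 i hsi h
      · left; rw [hr4 i hsi h]; exact hfE i hi)
    (by
      intro i j hi hj hsi hsj hei hej
      rw [(own i hsi hei).2, (own j hsj hej).2])
    (by
      intro i j hi hj hsi hsj h5i h5j
      rw [five i hi hsi h5i, five j hj hsj h5j])
    (by
      intro i j hi hj hsi h5 hsj
      have hiY := five i hi hsi h5
      subst hiY
      exact (hY hi).2 j hj hsj)
    (by
      intro i j hi hj hij hsi hc hei hej
      have hiY := notY i hsi hei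
      rw [hr4 i hsi hiY]
      by_cases hsj : s.side j = σ
      · obtain ⟨hh, hjx⟩ := own j hsj hej
        rw [hr1 j hsj ⟨hh, hjx⟩]
        subst hjx
        have hc2 : s.col j i ∈ EV := by rwa [s.symm j i hj hi (Ne.symm hij)]
        have := hfH hh i hi hsi hc2
        intro h7
        apply this
        rw [s.symm j i hj hi (Ne.symm hij), ← h7]
        ring
      · have hjY := notY j hsj hej
        rw [hr4 j hsj hjY]
        rcases Nat.lt_or_gt_of_ne hij with hlt | hlt
        · have hc2 : s.col j i ∈ EV := by rwa [s.symm j i hj hi (Ne.symm hij)]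
          have := hf2 j i hj hlt ⟨hj, hsj, hsi, hjY, hiY, hc2⟩
          intro h7
          apply this
          rw [s.symm j i hj hi (Ne.symm hij), ← h7]
          ring
        · have := hf2 i j hi hlt ⟨hi, hsi, hsj, hiY, hjY, hc⟩
          intro h7
          apply this
          rw [← h7]
          ring)
  refine ⟨s', g1, ?_, ?_, ?_, ?_⟩
  · intro hh
    obtain ⟨h1, h2⟩ := hH hh
    rw [g2 x h1, g3 x h1, hr1 x h2 ⟨hh, rfl⟩]
    exact ⟨rfl, rfl⟩
  · intro hPn
    obtain ⟨h1, h2, _⟩ := hP hPn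
    rw [g2 P hPn, g3 P hPn, hr4 P h1 h2, hfP hPn]
    exact ⟨rfl, rfl⟩
  · intro hYn
    rw [g2 Y hYn, g3 Y hYn, hr3 Y (hY hYn).1 rfl]
    exact ⟨rfl, rfl⟩
  · intro i hi hsi hne
    rw [g2 i hi, g3 i hi, hr2 i hsi hne]
    exact ⟨rfl, rfl⟩

/-- Two prescribed red edges across. -/
theorem gen_two {n : ℕ} (s : St n) (σ : Bool) (p q : ℕ) (v w : ZMod 6) (hpq : p < q) (hq : q < n)
    (hv : v ∈ EV) (hw : w ∈ EV) (hp1 : s.side p ≠ σ) (hq1 : s.side q ≠ σ)
    (hc : s.col q p ∈ EV → w + v + s.col q p ≠ 2) :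
    ∃ s' : St (n + 1), (∀ i j, i < n → j < n → s'.col i j = s.col i j) ∧
      (s'.col p n = v ∧ s'.col n p = v) ∧ (s'.col q n = w ∧ s'.col n q = w) := by
  classical
  obtain ⟨c0, hc0⟩ := exists_fresh s
  let E : ℕ → ℕ → Prop := fun i j =>
    i < n ∧ s.side i ≠ σ ∧ s.side j ≠ σ ∧ i ≠ n ∧ j ≠ n ∧ s.col i j ∈ EV
  obtain ⟨f, hf1, hfp, hfq, hf2⟩ := two_pre s.col E (edge_unique s σ n) p q v w hpq hv hw
    (fun h => hc h.2.2.2.2.2) n hq
  let r : ℕ → ZMod 6 := fun i => if s.side i = σ then 3 else f i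
  have hr1 : ∀ i, s.side i = σ → r i = 3 := by intro i h; simp only [r, if_pos h]
  have hr2 : ∀ i, s.side i ≠ σ → r i = f i := by intro i h; simp only [r, if_neg h]
  have h3 : (3 : ZMod 6) ∉ EV := by decide
  obtain ⟨s', g1, g2, g3⟩ := extend s σ c0 r
    (by
      intro i hi hsi
      right; rw [hr1 i hsi, if_neg (hc0 i hi)])
    (by
      intro i hi hsi
      left; rw [hr2 i hsi]; exact hf1 i hi)
    (by
      intro i j hi hj hsi hsj hei hej
      rw [hr1 i hsi] at hei
      exact absurd hei h3)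
    (by
      intro i j hi hj hsi hsj h5i h5j
      rw [hr2 i hsi] at h5i
      exact absurd h5i (ev_ne _ (hf1 i hi)).2.2)
    (by
      intro i j hi hj hsi h5 hsj
      exact hc0 j hj)
    (by
      intro i j hi hj hij hsi hcol hei hej
      rw [hr2 i hsi]
      by_cases hsj : s.side j = σ
      · rw [hr1 j hsj] at hej
        exact absurd hej h3
      · rw [hr2 j hsj]
        rcases Nat.lt_or_gt_of_ne hij with hlt | hlt
        · have hc2 : s.col j i ∈ EV := by rwa [s.symm j i hj hi (Ne.symm hij)]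
          have := hf2 j i hj hlt ⟨hj, hsj, hsi, by omega, by omega, hc2⟩
          intro h7
          apply this
          rw [s.symm j i hj hi (Ne.symm hij), ← h7]
          ring
        · have := hf2 i j hi hlt ⟨hi, hsi, hsj, by omega, by omega, hcol⟩
          intro h7
          apply this
          rw [← h7]
          ring)
  refine ⟨s', g1, ?_, ?_⟩
  · rw [g2 p (by omega), g3 p (by omega), hr2 p hp1, hfp]
    exact ⟨rfl, rfl⟩
  · rw [g2 q hq, g3 q hq, hr2 q hq1, hfq]
    exact ⟨rfl, rfl⟩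

theorem forb_of_sum : ∀ s t u : ZMod 6, s ∈ EV → t ∈ EV → u ∈ EV → s + t + u = 2 →
    Forbidden s t u := by decide

theorem odd_cases : ∀ b : ZMod 6, b ∉ EV → b = 1 ∨ b = 3 ∨ b = 5 := by decide

theorem bool_ne (σ τ ρ : Bool) (h1 : σ ≠ ρ) (h2 : τ ≠ ρ) : σ = τ := by
  revert h1 h2; cases σ <;> cases τ <;> cases ρ <;> simp

/-- The one point extension, red demand at `x`. -/
theorem step_red {n : ℕ} (s : St n) (x y : ℕ) (a b : ZMod 6) (hx : x < n) (hy : y < n)
    (hxy : x ≠ y) (ha : a ∈ EV) (hf : ¬ Forbidden (s.col x y) a b) :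
    ∃ s' : St (n + 1), (∀ i j, i < n → j < n → s'.col i j = s.col i j) ∧
      (s'.col x n = a ∧ s'.col n x = a) ∧ (s'.col y n = b ∧ s'.col n y = b) := by
  by_cases hb : b ∈ EV
  · by_cases hs : s.side x = s.side y
    · -- both across
      have hsum : s.col x y ∈ EV → a + b + s.col x y ≠ 2 := by
        intro h1 h2
        exact hf (forb_of_sum _ _ _ h1 ha hb (by rw [← h2]; ring))
      have hne : s.side x ≠ !(s.side x) := by cases s.side x <;> simp
      rcases Nat.lt_or_gt_of_ne hxy with hlt | hlt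
      · obtain ⟨s', g1, g2, g3⟩ := gen_two s (!(s.side x)) x y a b hlt hy ha hb hne (hs ▸ hne)
          (by
            intro h1
            rw [s.symm y x hy hx (Ne.symm hxy)] at h1 ⊢
            intro h2
            exact hsum h1 (by rw [← h2]; ring))
        exact ⟨s', g1, g2, g3⟩
      · obtain ⟨s', g1, g2, g3⟩ := gen_two s (!(s.side x)) y x b a hlt hx hb ha (hs ▸ hne) hne
          (by
            intro h1 h2
            exact hsum h1 (by rw [← h2]))
        exact ⟨s', g1, g3, g2⟩
    · obtain ⟨c0, hc0⟩ := exists_fresh s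
      obtain ⟨s', g1, g2, g3, _, _⟩ := gen s (s.side x) c0 True x a ha y b hb n
        (fun _ => ⟨hx, rfl⟩)
        (fun _ => ⟨fun h => hs h.symm, by omega, fun _ h1 h2 =>
          hf (forb_of_sum _ _ _ h1 ha hb (by rw [← h2]; ring))⟩)
        (fun h => absurd h (lt_irrefl n))
      exact ⟨s', g1, g2 trivial, g3 hy⟩
  · -- red at x, blue at y
    have h13 : b = 5 ∨ ∃ c0, (if s.cls y = c0 then (1 : ZMod 6) else 3) = b := by
      rcases odd_cases b hb with h | h | h
      · right; exact ⟨s.cls y, by rw [if_pos rfl, h]⟩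
      · right
        obtain ⟨c0, hc0⟩ := exists_fresh s
        exact ⟨c0, by rw [if_neg (hc0 y hy), h]⟩
      · left; exact h
    rcases h13 with h5 | ⟨c0, hc0⟩
    · subst h5
      obtain ⟨c0, hc0⟩ := exists_fresh s
      by_cases hs : s.side x = s.side y
      · have hne : s.side y ≠ !(s.side y) := by cases s.side y <;> simp
        obtain ⟨s', g1, _, g3, g4, _⟩ := gen s (!(s.side y)) c0 False x a ha x a ha y
          (fun h => h.elim)
          (fun _ => ⟨hs ▸ hne, hxy, fun h => h.elim⟩)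
          (fun _ => ⟨hne, fun i hi _ => hc0 i hi⟩)
        exact ⟨s', g1, g3 hx, g4 hy⟩
      · obtain ⟨s', g1, g2, _, g4, _⟩ := gen s (s.side x) c0 True x a ha n a ha y
          (fun _ => ⟨hx, rfl⟩)
          (fun h => absurd h (lt_irrefl n))
          (fun _ => ⟨fun h => hs h.symm, fun i hi _ => hc0 i hi⟩)
        exact ⟨s', g1, g2 trivial, g4 hy⟩
    · by_cases hs : s.side x = s.side y
      · obtain ⟨s', g1, g2, _, _, g5⟩ := gen s (s.side y) c0 True x a ha n a ha n
          (fun _ => ⟨hx, hs⟩)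
          (fun h => absurd h (lt_irrefl n))
          (fun h => absurd h (lt_irrefl n))
        have g6 := g5 y hy rfl (fun h => hxy h.2.symm)
        rw [hc0] at g6
        exact ⟨s', g1, g2 trivial, g6⟩
      · obtain ⟨s', g1, _, g3, _, g5⟩ := gen s (s.side y) c0 False x a ha x a ha n
          (fun h => h.elim)
          (fun _ => ⟨hs, by omega, fun h => h.elim⟩)
          (fun h => absurd h (lt_irrefl n))
        have g6 := g5 y hy rfl (fun h => h.1.elim)
        rw [hc0] at g6
        exact ⟨s', g1, g3 hx, g6⟩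

/-- The one point extension for demands with at least one even colour. -/
theorem step {n : ℕ} (s : St n) (x y : ℕ) (a b : ZMod 6) (hx : x < n) (hy : y < n)
    (hxy : x ≠ y) (hab : a ∈ EV ∨ b ∈ EV) (hf : ¬ Forbidden (s.col x y) a b) :
    ∃ s' : St (n + 1), (∀ i j, i < n → j < n → s'.col i j = s.col i j) ∧
      s'.col x n = a ∧ s'.col n y = b := by
  rcases hab with ha | hb
  · obtain ⟨s', g1, g2, g3⟩ := step_red s x y a b hx hy hxy ha hf
    exact ⟨s', g1, g2.1, g3.2⟩
  · obtain ⟨s', g1, g2, g3⟩ := step_red s y x b a hy hx (Ne.symm hxy) hb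
      (by
        rw [s.symm y x hy hx (Ne.symm hxy)]
        exact fun h => hf (forb_swap23 _ _ _ h))
    exact ⟨s', g1, g3.1, g2.2⟩

end Pool.Agent.Helper53.TT
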