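import Pool.Agent.Helper53.TT.Chain

/-!
Half representations of A_6([i,i,i+2]), MP_cf0286_al.
-/

namespace Pool.Agent.Helper53.TT

open Set Pool.Agent.RA6

/-- All diversity atoms of the element `A` have an index of parity `e`. -/
def OnlyParity (e : ℕ) (A : Set Atom) : Prop := ∀ s : ZMod 6, some s ∈ A → s.val % 2 = e

/-- The map `r` sends the elements of `A_6([i,i,i+2])` injectively to relations on `U`, preserves
all operations except possibly composition, never enlarges a composition, and is exact on every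
composition one of whose factors has only diversity atoms of parity `e`. -/
structure IsHalfRepresentation (e : ℕ) (U : Type) (r : Set Atom → Set (U × U)) : Prop where
  injective : Function.Injective r
  map_univ : r Set.univ = Set.univ
  map_union : ∀ A B, r (A ∪ B) = r A ∪ r B
  map_compl : ∀ A, r Aᶜ = (r A)ᶜ
  map_one : r {none} = {p | p.1 = p.2}
  map_conv : ∀ A, r A = relConv (r A)
  comp_sub : ∀ A B, relComp (r A) (r B) ⊆ r (algComp A B)
  comp_left : ∀ A B, OnlyParity e A → r (algComp A B) = relComp (r A) (r B)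
  comp_right : ∀ A B, OnlyParity e B → r (algComp A B) = relComp (r A) (r B)

/-- The same in terms of colourings. -/
structure IsHalfColouring (e : ℕ) {U : Type} (c : U → U → ZMod 6) : Prop where
  nontriv : ∃ x y : U, x ≠ y
  symm : ∀ x y, x ≠ y → c x y = c y x
  no_forb : ∀ x y z, x ≠ y → y ≠ z → x ≠ z → ¬ Forbidden (c x y) (c y z) (c x z)
  witness : ∀ x y, x ≠ y → ∀ s t, (s.val % 2 = e ∨ t.val % 2 = e) → ¬ Forbidden (c x y) s t →
    ∃ w, w ≠ x ∧ w ≠ y ∧ c x w = s ∧ c w y = t

theorem third_half : ∀ e : Fin 2, ∀ u s : ZMod 6, ∃ t : ZMod 6,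
    (s.val % 2 = e.val ∨ t.val % 2 = e.val) ∧ ¬ Forbidden u s t := by decide

theorem half_of_colouring {e : ℕ} (he : e < 2) {U : Type} {c : U → U → ZMod 6}
    (h : IsHalfColouring e c) : ∃ r : Set Atom → Set (U × U), IsHalfRepresentation e U r := by
  classical
  have hself : ∀ x, atomOf c x x = none := fun x => by simp [atomOf]
  have hne : ∀ x y, x ≠ y → atomOf c x y = some (c x y) := fun x y hxy => by simp [atomOf, hxy]
  have hsymm : ∀ x y, atomOf c x y = atomOf c y x := by
    intro x y
    by_cases hxy : x = y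
    · subst hxy; rfl
    · rw [hne x y hxy, hne y x (Ne.symm hxy), h.symm x y hxy]
  have hdeg : ∀ x s, ∃ w, w ≠ x ∧ c x w = s := by
    intro x s
    obtain ⟨p, q, hpq⟩ := h.nontriv
    have : ∃ y, x ≠ y := by
      by_cases hp : x = p
      · exact ⟨q, by rw [hp]; exact hpq⟩
      · exact ⟨p, hp⟩
    obtain ⟨y, hy⟩ := this
    obtain ⟨t, ht1, ht⟩ := third_half ⟨e, he⟩ (c x y) s
    obtain ⟨w, hw, _, h1, _⟩ := h.witness x y hy s t ht1 ht
    exact ⟨w, hw, h1⟩
  have hall : ∀ a : Atom, ∃ x y, atomOf c x y = a := by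
    intro a
    obtain ⟨p, _, _⟩ := h.nontriv
    cases a with
    | none => exact ⟨p, p, hself p⟩
    | some s =>
      obtain ⟨w, hw, hs⟩ := hdeg p s
      exact ⟨p, w, by rw [hne p w (Ne.symm hw), hs]⟩
  have hsub : ∀ A B : Set Atom, relComp {p | atomOf c p.1 p.2 ∈ A} {p | atomOf c p.1 p.2 ∈ B} ⊆
      {p | atomOf c p.1 p.2 ∈ algComp A B} := by
    rintro A B ⟨x, y⟩ ⟨w, hxw, hwy⟩
    refine ⟨atomOf c x w, hxw, atomOf c w y, hwy, ?_⟩
    by_cases h1 : x = w
    · subst h1
      rw [hself]
      show atomOf c x y ∈ ({atomOf c x y} : Set Atom)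
      exact rfl
    · by_cases h2 : w = y
      · subst h2
        rw [hself, hne x w h1]
        show _ ∈ ({some (c x w)} : Set Atom)
        exact rfl
      · rw [hne x w h1, hne w y h2]
        show atomOf c x y ∈ {z | _}
        by_cases h3 : x = y
        · subst h3
          right
          exact ⟨hself x, h.symm x w h1⟩
        · left
          exact ⟨c x y, hne x y h3, h.no_forb x w y h1 h2 h3⟩
  have hsup : ∀ A B : Set Atom, (OnlyParity e A ∨ OnlyParity e B) →
      {p : U × U | atomOf c p.1 p.2 ∈ algComp A B} ⊆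
        relComp {p | atomOf c p.1 p.2 ∈ A} {p | atomOf c p.1 p.2 ∈ B} := by
    rintro A B hAB ⟨x, y⟩ ⟨a, ha, b, hb, hab⟩
    cases a with
    | none =>
      refine ⟨x, by show atomOf c x x ∈ A; rw [hself]; exact ha, ?_⟩
      have : atomOf c x y = b := hab
      show atomOf c x y ∈ B
      rw [this]; exact hb
    | some s =>
      cases b with
      | none =>
        refine ⟨y, ?_, by show atomOf c y y ∈ B; rw [hself]; exact hb⟩
        have : atomOf c x y = some s := hab
        show atomOf c x y ∈ A
        rw [this]; exact ha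
      | some t =>
        have hpar : s.val % 2 = e ∨ t.val % 2 = e := by
          rcases hAB with h1 | h1
          · exact Or.inl (h1 s ha)
          · exact Or.inr (h1 t hb)
        rcases hab with ⟨u, hu, hf⟩ | ⟨hn, hst⟩
        · by_cases hxy : x = y
          · subst hxy
            have hu2 : atomOf c x x = some u := hu
            rw [hself] at hu2; exact absurd hu2 (by simp)
          · have hu2 : atomOf c x y = some u := hu
            rw [hne x y hxy] at hu2
            have hu' : c x y = u := by simpa using hu2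
            have hf' : ¬ Forbidden (c x y) s t := by
              rw [hu']
              intro hc
              exact hf (forb_swap23 _ _ _ (forb_swap12 _ _ _ hc))
            obtain ⟨w, hwx, hwy, h1, h2⟩ := h.witness x y hxy s t hpar hf'
            refine ⟨w, ?_, ?_⟩
            · show atomOf c x w ∈ A
              rw [hne x w (Ne.symm hwx), h1]; exact ha
            · show atomOf c w y ∈ B
              rw [hne w y hwy, h2]; exact hb
        · by_cases hxy : x = y
          · subst hxy
            subst hst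
            obtain ⟨w, hw, hs⟩ := hdeg x s
            refine ⟨w, ?_, ?_⟩
            · show atomOf c x w ∈ A
              rw [hne x w (Ne.symm hw), hs]; exact ha
            · show atomOf c w x ∈ B
              rw [hne w x hw, h.symm w x hw, hs]; exact hb
          · have hn2 : atomOf c x y = none := hn
            rw [hne x y hxy] at hn2; exact absurd hn2 (by simp)
  refine ⟨fun A => {p | atomOf c p.1 p.2 ∈ A}, ?_, ?_, ?_, ?_, ?_, ?_, ?_, ?_, ?_⟩
  · intro A B hAB
    ext a
    obtain ⟨x, y, hxy⟩ := hall a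
    have h1 : ((x, y) ∈ {p : U × U | atomOf c p.1 p.2 ∈ A}) ↔
      ((x, y) ∈ {p : U × U | atomOf c p.1 p.2 ∈ B}) := by rw [show {p : U × U |
        atomOf c p.1 p.2 ∈ A} = {p : U × U | atomOf c p.1 p.2 ∈ B} from hAB]
    have h2 : (atomOf c x y ∈ A) ↔ (atomOf c x y ∈ B) := h1
    rwa [hxy] at h2
  · ext p; simp
  · intro A B; ext p; exact Iff.rfl
  · intro A; ext p; exact Iff.rfl
  · ext p
    obtain ⟨x, y⟩ := p
    show atomOf c x y ∈ ({none} : Set Atom) ↔ x = y
    constructor
    · intro hxy
      by_contra hne'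
      have hxy' : atomOf c x y = none := hxy
      rw [hne x y hne'] at hxy'
      exact absurd hxy' (by simp)
    · intro hxy
      subst hxy
      exact hself x
  · intro A; ext p
    obtain ⟨x, y⟩ := p
    show atomOf c x y ∈ A ↔ atomOf c y x ∈ A
    rw [hsymm x y]
  · exact hsub
  · intro A B hA
    exact Set.Subset.antisymm (hsup A B (Or.inl hA)) (hsub A B)
  · intro A B hB
    exact Set.Subset.antisymm (hsup A B (Or.inr hB)) (hsub A B)

theorem ev_iff : ∀ s : ZMod 6, s ∈ EV ↔ s.val % 2 = 0 := by decide

theorem ev_sub_one : ∀ s : ZMod 6, s - 1 ∈ EV ↔ s.val % 2 = 1 := by decide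

theorem forb_shift : ∀ s t u : ZMod 6, Forbidden (s + 1) (t + 1) (u + 1) → Forbidden s t u := by
  decide

theorem forb_shift' : ∀ s t u : ZMod 6, Forbidden s (t - 1) (u - 1) → Forbidden (s + 1) t u := by
  decide

theorem half_exists : ∀ e, e < 2 → ∃ r : Set Atom → Set (ℕ × ℕ), IsHalfRepresentation e ℕ r := by
  intro e he
  obtain ⟨c, h1, h2, h3⟩ := even_colouring
  have he2 : e = 0 ∨ e = 1 := by omega
  rcases he2 with rfl | rfl
  · refine half_of_colouring he (c := c) ⟨⟨0, 1, by omega⟩, h1, h2, ?_⟩
    intro x y hxy s t hst hf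
    exact h3 x y hxy s t (by rwa [ev_iff, ev_iff]) hf
  · refine half_of_colouring he (c := fun x y => c x y + 1) ⟨⟨0, 1, by omega⟩, ?_, ?_, ?_⟩
    · intro x y hxy
      show c x y + 1 = c y x + 1
      rw [h1 x y hxy]
    · intro x y z hxy hyz hxz hf
      exact h2 x y z hxy hyz hxz (forb_shift _ _ _ hf)
    · intro x y hxy s t hst hf
      obtain ⟨w, hw1, hw2, hw3, hw4⟩ := h3 x y hxy (s - 1) (t - 1)
        (by rwa [ev_sub_one, ev_sub_one]) (fun hf' => hf (forb_shift' _ _ _ hf'))
      exact ⟨w, hw1, hw2, by show c x w + 1 = s; rw [hw3]; ring,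
        by show c w y + 1 = t; rw [hw4]; ring⟩

end Pool.Agent.Helper53.TT
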