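import Pool.Agent.Helper53.TT.Forest

/-!
States and one point extensions for MP_cf0286_al (all demands but odd-odd).
-/

namespace Pool.Agent.Helper53.TT

open Pool.Agent.RA6

/-- A state: a coloured complete graph on `0, ..., n-1` with two sides and classes. -/
structure St (n : ℕ) where
  side : ℕ → Bool
  cls : ℕ → ℕ
  col : ℕ → ℕ → ZMod 6
  symm : ∀ i j, i < n → j < n → i ≠ j → col i j = col j i
  noforb : ∀ i j k, i < n → j < n → k < n → i ≠ j → j ≠ k → i ≠ k →
    ¬ Forbidden (col i j) (col j k) (col i k)
  inside : ∀ i j, i < n → j < n → i ≠ j → side i = side j →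
    col i j ∈ EV ∨ col i j = if cls i = cls j then 1 else 3
  across : ∀ i j, i < n → j < n → i ≠ j → side i ≠ side j → col i j ∈ EV ∨ col i j = 5
  forest : ∀ i j k, i < n → j < i → k < i → side j = side i → side k = side i →
    col i j ∈ EV → col i k ∈ EV → j = k

theorem forb_parity : ∀ s t u : ZMod 6, Forbidden s t u →
    (s ∈ EV ∧ t ∈ EV ∧ u ∈ EV ∧ s + t + u = 2) ∨ (s ∉ EV ∧ t ∉ EV ∧ u ∉ EV ∧ s + t + u = 5) := by
  decide

theorem ev_ne (s : ZMod 6) (h : s ∈ EV) : s ≠ 1 ∧ s ≠ 3 ∧ s ≠ 5 := by
  revert s; decide

theorem nat_notin (p : Prop) [Decidable p] : (if p then (1 : ZMod 6) else 3) ∉ EV := by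
  split_ifs <;> decide

theorem forb_rot : ∀ s t u : ZMod 6, Forbidden s t u → Forbidden t u s := by decide

theorem extend {n : ℕ} (s : St n) (σ : Bool) (c0 : ℕ) (r : ℕ → ZMod 6)
    (r1 : ∀ i, i < n → s.side i = σ → r i ∈ EV ∨ r i = if s.cls i = c0 then 1 else 3)
    (r2 : ∀ i, i < n → s.side i ≠ σ → r i ∈ EV ∨ r i = 5)
    (r3 : ∀ i j, i < n → j < n → s.side i = σ → s.side j = σ → r i ∈ EV → r j ∈ EV → i = j)
    (r4 : ∀ i j, i < n → j < n → s.side i ≠ σ → s.side j ≠ σ → r i = 5 → r j = 5 → i = j)
    (r5 : ∀ i j, i < n → j < n → s.side i ≠ σ → r i = 5 → s.side j = σ → s.cls j ≠ c0)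
    (r6 : ∀ i j, i < n → j < n → i ≠ j → s.side i ≠ σ → s.col i j ∈ EV → r i ∈ EV → r j ∈ EV →
      s.col i j + r j + r i ≠ 2) :
    ∃ s' : St (n + 1), (∀ i j, i < n → j < n → s'.col i j = s.col i j) ∧
      (∀ i, i < n → s'.col i n = r i) ∧ (∀ i, i < n → s'.col n i = r i) := by
  -- the new triangles
  have hd : ∀ i j, i < n → j < n → i ≠ j → ¬ Forbidden (s.col i j) (r j) (r i) := by
    intro i j hi hj hij hf
    rcases forb_parity _ _ _ hf with ⟨h1, h2, h3, h4⟩ | ⟨h1, h2, h3, h4⟩
    · by_cases hsi : s.side i = σ
      · by_cases hsj : s.side j = σ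
        · exact hij (r3 i j hi hj hsi hsj h3 h2)
        · apply r6 j i hj hi (Ne.symm hij) hsj (by rwa [s.symm j i hj hi (Ne.symm hij)]) h2 h3
          rw [s.symm j i hj hi (Ne.symm hij), ← h4]
          ring
      · exact r6 i j hi hj hij hsi h1 h3 h2 h4
    · by_cases hsi : s.side i = σ
      · have e1 := (r1 i hi hsi).resolve_left h3
        by_cases hsj : s.side j = σ
        · have e2 := (r1 j hj hsj).resolve_left h2
          have e3 := (s.inside i j hi hj hij (hsi.trans hsj.symm)).resolve_left h1
          rw [e1, e2, e3] at h4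
          by_cases c1 : s.cls i = c0 <;> by_cases c2 : s.cls j = c0
          · have c3 : s.cls i = s.cls j := c1.trans c2.symm
            rw [if_pos c1, if_pos c2, if_pos c3] at h4
            revert h4; decide
          · have c3 : s.cls i ≠ s.cls j := fun h => c2 (h ▸ c1)
            rw [if_pos c1, if_neg c2, if_neg c3] at h4
            revert h4; decide
          · have c3 : s.cls i ≠ s.cls j := fun h => c1 (h.trans c2)
            rw [if_neg c1, if_pos c2, if_neg c3] at h4
            revert h4; decide
          · rw [if_neg c1, if_neg c2] at h4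
            by_cases c3 : s.cls i = s.cls j
            · rw [if_pos c3] at h4; revert h4; decide
            · rw [if_neg c3] at h4; revert h4; decide
        · have e2 := (r2 j hj hsj).resolve_left h2
          have e3 := (s.across i j hi hj hij (fun h => hsj (h ▸ hsi))).resolve_left h1
          have e4 := r5 j i hj hi hsj e2 hsi
          rw [e1, e2, e3, if_neg e4] at h4
          revert h4; decide
      · have e1 := (r2 i hi hsi).resolve_left h3
        by_cases hsj : s.side j = σ
        · have e2 := (r1 j hj hsj).resolve_left h2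
          have e3 := (s.across i j hi hj hij (fun h => hsi (h.trans hsj))).resolve_left h1
          have e4 := r5 i j hi hj hsi e1 hsj
          rw [e1, e2, e3, if_neg e4] at h4
          revert h4; decide
        · have e2 := (r2 j hj hsj).resolve_left h2
          exact hij (r4 i j hi hj hsi hsj e1 e2)
  have hsymf : ∀ s t u : ZMod 6, Forbidden s t u → Forbidden t s u := forb_swap12
  let col' : ℕ → ℕ → ZMod 6 := fun i j => if i = n then r j else if j = n then r i else s.col i j
  have hc1 : ∀ i j, i ≠ n → j ≠ n → col' i j = s.col i j := by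
    intro i j hi hj; simp [col', hi, hj]
  have hc2 : ∀ i, i ≠ n → col' i n = r i := by
    intro i hi; simp [col', hi]
  have hc3 : ∀ j, col' n j = r j := by
    intro j; simp [col']
  have hs1 : ∀ i, i ≠ n → Function.update s.side n σ i = s.side i := fun i hi =>
    Function.update_of_ne hi _ _
  have hs2 : Function.update s.side n σ n = σ := Function.update_self _ _ _
  have hk1 : ∀ i, i ≠ n → Function.update s.cls n c0 i = s.cls i := fun i hi =>
    Function.update_of_ne hi _ _
  have hk2 : Function.update s.cls n c0 n = c0 := Function.update_self _ _ _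
  refine ⟨{ side := Function.update s.side n σ
            cls := Function.update s.cls n c0
            col := col'
            symm := ?_
            noforb := ?_
            inside := ?_
            across := ?_
            forest := ?_ }, ?_, ?_, ?_⟩
  · intro i j hi hj hij
    by_cases h1 : i = n
    · subst h1
      rw [hc3, hc2 j (Ne.symm hij)]
    · by_cases h2 : j = n
      · subst h2
        rw [hc3, hc2 i h1]
      · rw [hc1 i j h1 h2, hc1 j i h2 h1]
        exact s.symm i j (by omega) (by omega) hij
  · intro i j k hi hj hk hij hjk hik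
    by_cases h1 : i = n
    · subst h1
      rw [hc3, hc3, hc1 j k (Ne.symm hij) (Ne.symm hik)]
      intro hf
      have hf2 : Forbidden (s.col j k) (r k) (r j) := forb_rot _ _ _ hf
      exact hd j k (by omega) (by omega) hjk hf2
    · by_cases h2 : j = n
      · subst h2
        rw [hc3, hc2 i h1, hc1 i k h1 (Ne.symm hjk)]
        intro hf
        have hf2 : Forbidden (s.col i k) (r k) (r i) :=
          forb_swap12 _ _ _ (forb_rot _ _ _ hf)
        exact hd i k (by omega) (by omega) hik hf2
      · by_cases h3 : k = n
        · subst h3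
          rw [hc2 i h1, hc2 j h2, hc1 i j h1 h2]
          exact hd i j (by omega) (by omega) hij
        · rw [hc1 i j h1 h2, hc1 j k h2 h3, hc1 i k h1 h3]
          exact s.noforb i j k (by omega) (by omega) (by omega) hij hjk hik
  · intro i j hi hj hij hsd
    by_cases h1 : i = n
    · subst h1
      rw [hs2, hs1 j (Ne.symm hij)] at hsd
      rw [hc3, hk2, hk1 j (Ne.symm hij)]
      rcases r1 j (by omega) hsd.symm with h | h
      · exact Or.inl h
      · right
        rw [h]
        by_cases c : s.cls j = c0
        · rw [if_pos c, if_pos c.symm]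
        · rw [if_neg c, if_neg (Ne.symm c)]
    · by_cases h2 : j = n
      · subst h2
        rw [hs2, hs1 i h1] at hsd
        rw [hc2 i h1, hk2, hk1 i h1]
        exact r1 i (by omega) hsd
      · rw [hs1 i h1, hs1 j h2] at hsd
        rw [hc1 i j h1 h2, hk1 i h1, hk1 j h2]
        exact s.inside i j (by omega) (by omega) hij hsd
  · intro i j hi hj hij hsd
    by_cases h1 : i = n
    · subst h1
      rw [hs2, hs1 j (Ne.symm hij)] at hsd
      rw [hc3]
      exact r2 j (by omega) (Ne.symm hsd)
    · by_cases h2 : j = n
      · subst h2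
        rw [hs2, hs1 i h1] at hsd
        rw [hc2 i h1]
        exact r2 i (by omega) hsd
      · rw [hs1 i h1, hs1 j h2] at hsd
        rw [hc1 i j h1 h2]
        exact s.across i j (by omega) (by omega) hij hsd
  · intro i j k hi hj hk hsj hsk hej hek
    by_cases h1 : i = n
    · subst h1
      rw [hs2, hs1 j (by omega)] at hsj
      rw [hs2, hs1 k (by omega)] at hsk
      rw [hc3] at hej hek
      exact r3 j k hj hk hsj hsk hej hek
    · rw [hs1 i h1, hs1 j (by omega)] at hsj
      rw [hs1 i h1, hs1 k (by omega)] at hsk
      rw [hc1 i j h1 (by omega)] at hej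
      rw [hc1 i k h1 (by omega)] at hek
      exact s.forest i j k (by omega) hj hk hsj hsk hej hek
  · intro i j hi hj
    exact hc1 i j (by omega) (by omega)
  · intro i hi
    exact hc2 i (by omega)
  · intro i hi
    exact hc3 i

end Pool.Agent.Helper53.TT
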